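import Pool.Agent.helper37.L5.Spec

/-!
# Row l5:FR5 (MP_baa4d7_al): Fong-Reynolds, the number `Le` does not depend on the group
-/

set_option autoImplicit false

namespace Pool.Agent.L5
open Pool.Agent.helper58.DC Pool.Agent.DI Pool.Agent.GR Pool.Agent.OB Pool.Agent.DR Pool.Agent.FI Pool.Agent.FI3 Pool.Agent.FI4 Pool.Agent.FI4I Pool.Agent.LE

section

theorem FR5_fm {G : Type} [Fintype G] (s : Set G) (f : G → ℂ) :
    ∑ᶠ v ∈ s, f v = ∑ v, s.indicator f v := by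
  rw [finsum_mem_def, finsum_eq_sum_of_fintype]

theorem FR5_natsum {ι : Type} (F : Finset ι) (a : ι → ℂ) (h : ∀ i ∈ F, ∃ m : ℕ, a i = m)
    (h0 : ∑ i ∈ F, a i = 0) : ∀ i ∈ F, a i = 0 := by
  classical
  have h' : ∀ i, ∃ m : ℕ, i ∈ F → a i = m := by
    intro i
    by_cases hi : i ∈ F
    · obtain ⟨m, hm⟩ := h i hi; exact ⟨m, fun _ => hm⟩
    · exact ⟨0, fun hh => absurd hh hi⟩
  choose m hm using h'
  have h1 : ∑ i ∈ F, a i = ((∑ i ∈ F, m i : ℕ) : ℂ) := by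
    push_cast
    exact Finset.sum_congr rfl fun i hi => hm i hi
  rw [h1] at h0
  have h2 : ∑ i ∈ F, m i = 0 := by exact_mod_cast h0
  intro i hi
  have h3 := (Finset.sum_eq_zero_iff.1 h2) i hi
  rw [hm i hi, h3]; simp

variable {G : Type} [Group G]

/-- the restriction formula as a finite sum -/
theorem FR5_res (hQRS : QRS_stmt) [Finite G] (L K : Subgroup G) (hKL : K ≤ L) (hF : (IrrOn K).Finite)
    (φ : G → ℂ) (hφ : φ ∈ IrrOn L) (g : G) (hg : g ∈ K) :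
    φ g = ∑ ψ ∈ hF.toFinset, Pool.Agent.FI.mt K φ ψ * ψ g := by
  rw [(hQRS G L K hKL φ hφ).2 g hg, finsum_mem_eq_finite_toFinset_sum _ hF]

theorem FR5_ev (hQRS : QRS_stmt) [Finite G] (L K : Subgroup G) (hKL : K ≤ L) (hF : (IrrOn K).Finite)
    (hne : ∀ ψ ∈ IrrOn K, ψ 1 ≠ 0)
    (e : G → ℂ) (he : ∀ x, x ∉ K → e x = 0) (φ : G → ℂ) (hφ : φ ∈ IrrOn L) :
    ev φ e 1 = ∑ ψ ∈ hF.toFinset, Pool.Agent.FI.mt K φ ψ * (cc ψ e * ψ 1) := by
  classical
  have := Fintype.ofFinite G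
  have h1 : ∀ x : G, e x * φ (1 * x) = ∑ ψ ∈ hF.toFinset, Pool.Agent.FI.mt K φ ψ * (e x * ψ x) := by
    intro x
    rw [one_mul]
    by_cases hx : x ∈ K
    · rw [FR5_res hQRS L K hKL hF φ hφ x hx, Finset.mul_sum]
      exact Finset.sum_congr rfl fun ψ _ => by ring
    · rw [he x hx]; simp
  unfold ev
  rw [finsum_eq_sum_of_fintype, Finset.sum_congr rfl fun x _ => h1 x, Finset.sum_comm]
  refine Finset.sum_congr rfl fun ψ hψ => ?_
  have hψ' : ψ ∈ IrrOn K := hF.mem_toFinset.1 hψ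
  rw [← Finset.mul_sum]
  congr 1
  unfold cc
  rw [div_mul_cancel₀ _ (hne ψ hψ'), finsum_eq_sum_of_fintype]

theorem FR5_mt (hQRS : QRS_stmt) [Finite G] (H S K : Subgroup G) (hSH : S ≤ H) (hKS : K ≤ S)
    (hF : (IrrOn S).Finite) (φ : G → ℂ) (hφ : φ ∈ IrrOn H) (ψ : G → ℂ) :
    Pool.Agent.FI.mt K φ ψ = ∑ ζ ∈ hF.toFinset, Pool.Agent.FI.mt S φ ζ * Pool.Agent.FI.mt K ζ ψ := by
  classical
  have := Fintype.ofFinite G
  have h1 : ∀ x : G, (K : Set G).indicator (fun x => φ x * ψ x⁻¹) x =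
      ∑ ζ ∈ hF.toFinset, Pool.Agent.FI.mt S φ ζ * ((K : Set G).indicator (fun x => ζ x * ψ x⁻¹) x) := by
    intro x
    by_cases hx : x ∈ (K : Set G)
    · rw [Set.indicator_of_mem hx, FR5_res hQRS H S hSH hF φ hφ x (hKS hx), Finset.sum_mul]
      exact Finset.sum_congr rfl fun ζ _ => by rw [Set.indicator_of_mem hx]; ring
    · rw [Set.indicator_of_notMem hx]
      symm
      exact Finset.sum_eq_zero fun ζ _ => by rw [Set.indicator_of_notMem hx, mul_zero]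
  have h2 : ∀ η : G → ℂ, Pool.Agent.FI.mt K η ψ =
      (∑ x, (K : Set G).indicator (fun x => η x * ψ x⁻¹) x) / Nat.card K := by
    intro η
    unfold Pool.Agent.FI.mt
    rw [FR5_fm]
  rw [h2 φ, Finset.sum_congr rfl fun x _ => h1 x, Finset.sum_comm, Finset.sum_div]
  refine Finset.sum_congr rfl fun ζ _ => ?_
  rw [← Finset.mul_sum, mul_div_assoc, h2 ζ]

theorem FR5_preg {p : ℕ} (h v : G) (hv : PReg p v) : PReg p (h * v * h⁻¹) := by
  unfold PReg at *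
  have : orderOf (h * v * h⁻¹) = orderOf v := by
    have h1 := orderOf_injective (MulAut.conj h).toMonoidHom (MulAut.conj h).injective v
    simpa using h1
  rw [this]; exact hv

theorem FR5_EE1 [Finite G] (p : ℕ) (H S : Subgroup G) (hSH : S ≤ H) (φ ζ : G → ℂ)
    (hφc : ∀ g, ∀ h ∈ H, φ (h * g * h⁻¹) = φ g) (hζ : ∀ g, g ∉ S → ζ g = 0)
    (hf : ∀ x ∈ H, φ x = (∑ᶠ h ∈ (H : Set G), ζ (h⁻¹ * x * h)) / Nat.card S) :
    EE p H φ φ = EE p S ζ φ := by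
  classical
  have := Fintype.ofFinite G
  unfold EE
  rw [FR5_fm, FR5_fm]
  set P : Set G := {v : G | v ∈ H ∧ PReg p v} with hP
  set Q : Set G := {v : G | v ∈ S ∧ PReg p v} with hQ
  have hPc : ∀ h ∈ H, ∀ u, h * u * h⁻¹ ∈ P ↔ u ∈ P := by
    intro h hh u
    constructor
    · rintro ⟨h1, h2⟩
      refine ⟨?_, ?_⟩
      · have := H.mul_mem (H.mul_mem (H.inv_mem hh) h1) hh
        have e1 : h⁻¹ * (h * u * h⁻¹) * h = u := by group
        rwa [e1] at this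
      · have := FR5_preg h⁻¹ _ h2
        have e1 : h⁻¹ * (h * u * h⁻¹) * h⁻¹⁻¹ = u := by group
        rwa [e1] at this
    · rintro ⟨h1, h2⟩
      exact ⟨H.mul_mem (H.mul_mem hh h1) (H.inv_mem hh), FR5_preg h _ h2⟩
  have hS0 : (Nat.card S : ℂ) ≠ 0 := by exact_mod_cast (Nat.card_pos (α := S)).ne'
  have hH0 : (Nat.card H : ℂ) ≠ 0 := by exact_mod_cast (Nat.card_pos (α := H)).ne'
  have h1 : ∀ v : G, P.indicator (fun v => φ v * φ v⁻¹) v =
      (∑ h : G, (H : Set G).indicator (fun h => P.indicator (fun v => ζ (h⁻¹ * v * h) * φ v⁻¹) v) h) / Nat.card S := by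
    intro v
    by_cases hv : v ∈ P
    · rw [Set.indicator_of_mem hv, hf v hv.1, FR5_fm, div_mul_eq_mul_div, Finset.sum_mul]
      congr 1
      refine Finset.sum_congr rfl fun h _ => ?_
      by_cases hh : h ∈ (H : Set G)
      · rw [Set.indicator_of_mem hh, Set.indicator_of_mem hh, Set.indicator_of_mem hv]
      · rw [Set.indicator_of_notMem hh, Set.indicator_of_notMem hh, zero_mul]
    · rw [Set.indicator_of_notMem hv]
      symm
      rw [Finset.sum_eq_zero, zero_div]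
      intro h _
      by_cases hh : h ∈ (H : Set G)
      · rw [Set.indicator_of_mem hh, Set.indicator_of_notMem hv]
      · rw [Set.indicator_of_notMem hh]
  rw [Finset.sum_congr rfl fun v _ => h1 v, ← Finset.sum_div, Finset.sum_comm]
  set C : ℂ := ∑ u : G, Q.indicator (fun v => ζ v * φ v⁻¹) u with hC
  have h2 : ∀ h : G, (∑ v : G, (H : Set G).indicator (fun h => P.indicator (fun v => ζ (h⁻¹ * v * h) * φ v⁻¹) v) h) =
      (H : Set G).indicator (fun _ => C) h := by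
    intro h
    by_cases hh : h ∈ (H : Set G)
    · simp only [Set.indicator_of_mem hh]
      rw [← Equiv.sum_comp (MulAut.conj h).toEquiv, hC]
      refine Finset.sum_congr rfl fun u _ => ?_
      have e0 : (MulAut.conj h).toEquiv u = h * u * h⁻¹ := rfl
      rw [e0]
      have e1 : h⁻¹ * (h * u * h⁻¹) * h = u := by group
      have e2 : (h * u * h⁻¹)⁻¹ = h * u⁻¹ * h⁻¹ := by group
      by_cases hu : u ∈ P
      · rw [Set.indicator_of_mem ((hPc h hh u).2 hu), e1, e2, hφc _ h hh]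
        by_cases huS : u ∈ S
        · have h3 : u ∈ Q := ⟨huS, hu.2⟩
          rw [Set.indicator_of_mem h3]
        · have h3 : u ∉ Q := fun hc => huS hc.1
          rw [Set.indicator_of_notMem h3, hζ u huS, zero_mul]
      · have h3 : u ∉ Q := fun hc => hu ⟨hSH hc.1, hc.2⟩
        rw [Set.indicator_of_notMem (fun hc => hu ((hPc h hh u).1 hc)), Set.indicator_of_notMem h3]
    · simp only [Set.indicator_of_notMem hh]; simp
  rw [Finset.sum_congr rfl fun h _ => h2 h]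
  have h3 : (∑ h : G, (H : Set G).indicator (fun _ => C) h) = Nat.card H * C := by
    have h4 := FR5_fm (H : Set G) (fun _ => C)
    rw [← h4, finsum_mem_eq_finite_toFinset_sum _ (Set.toFinite (H : Set G)), Finset.sum_const, nsmul_eq_mul]
    congr 2
    rw [← Set.ncard_eq_toFinset_card _ (Set.toFinite (H : Set G))]
    exact Nat.card_coe_set_eq (H : Set G) |>.symm
  rw [h3]
  field_simp

theorem FR5_EE2 (hQRS : QRS_stmt) [Finite G] (p : ℕ) (H S : Subgroup G) (hSH : S ≤ H)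
    (hF : (IrrOn S).Finite) (φ : G → ℂ) (hφ : φ ∈ IrrOn H) (ζ : G → ℂ) :
    EE p S ζ φ = ∑ ζ' ∈ hF.toFinset, Pool.Agent.FI.mt S φ ζ' * EE p S ζ ζ' := by
  classical
  have := Fintype.ofFinite G
  set Q : Set G := {v : G | v ∈ S ∧ PReg p v} with hQ
  have h1 : ∀ x : G, Q.indicator (fun x => ζ x * φ x⁻¹) x =
      ∑ ζ' ∈ hF.toFinset, Pool.Agent.FI.mt S φ ζ' * (Q.indicator (fun x => ζ x * ζ' x⁻¹) x) := by
    intro x
    by_cases hx : x ∈ Q
    · rw [Set.indicator_of_mem hx, FR5_res hQRS H S hSH hF φ hφ x⁻¹ (S.inv_mem hx.1), Finset.mul_sum]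
      exact Finset.sum_congr rfl fun ζ _ => by rw [Set.indicator_of_mem hx]; ring
    · rw [Set.indicator_of_notMem hx]
      symm
      exact Finset.sum_eq_zero fun ζ _ => by rw [Set.indicator_of_notMem hx, mul_zero]
  have h2 : ∀ η : G → ℂ, EE p S ζ η = (∑ x, Q.indicator (fun x => ζ x * η x⁻¹) x) / Nat.card S := by
    intro η
    unfold EE
    rw [FR5_fm]
  rw [h2 φ, Finset.sum_congr rfl fun x _ => h1 x, Finset.sum_comm, Finset.sum_div]
  refine Finset.sum_congr rfl fun ζ' _ => ?_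
  rw [← Finset.mul_sum, mul_div_assoc, h2 ζ']

end

theorem FR5 (hFRA : FRA5_stmt) (hFRB : FRB5_stmt) (hFRD : FRD5_stmt) (hFRE : FRE5_stmt) (hQRS : QRS_stmt) (hEVM : EVM_stmt) (hIDM : IDM_stmt) (hCCI : CCI_stmt) (hQEI : QEI_stmt) (hFBC : FBC_stmt) (hB2 : B2_stmt) : FR5_stmt := by
  classical
  intro p M hS G _ _ D x θ χ hRt R hRD hnR H hKH hTH
  have := Fintype.ofFinite G
  obtain ⟨hA1, hA2⟩ := hFRA p M hS G D x θ χ hRt R hRD hnR
  set K := cz R with hK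
  set S := K ⊔ TT M D θ with hSdef
  have hKS : K ≤ S := le_sup_left
  have hSH : S ≤ H := sup_le hKH hTH
  set b := Bl M K θ with hb
  set e := eS K b with he
  have hbI : b ⊆ IrrOn K := fun ψ h => h.1
  obtain ⟨hCFK, hcce, hcve, -⟩ := hIDM G K b hbI
  rw [← he] at hCFK hcce hcve
  have hCFS : CF S e := ⟨hA1, fun y hy => hCFK.2 y fun h => hy (hKS h)⟩
  have hne : ∀ (L : Subgroup G), ∀ ψ ∈ IrrOn L, ψ 1 ≠ 0 := by
    intro L ψ h
    obtain ⟨n, hn, e1, -⟩ := ((hB2 G L).2 ψ h).1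
    rw [e1]; exact_mod_cast hn.ne'
  have hFK := (hB2 G K).1
  have hFS := (hB2 G S).1
  -- membership through `ev`
  have hmem : ∀ L : Subgroup G, K ≤ L → ∀ φ ∈ IrrOn L, (ev φ e 1 ≠ 0 ↔ φ ∈ Bl M L θ) := by
    intro L hL φ hφ
    have h1 := hFRB p M hS G D x θ χ hRt R hRD hnR L hL φ hφ
    rw [h1]
    have h2 := FR5_ev hQRS L K hL hFK (hne K) e hCFK.2 φ hφ
    have hterm : ∀ ψ ∈ hFK.toFinset, ∃ m : ℕ, Pool.Agent.FI.mt K φ ψ * (cc ψ e * ψ 1) = m := by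
      intro ψ hψ
      have hψ' : ψ ∈ IrrOn K := hFK.mem_toFinset.1 hψ
      obtain ⟨n, hn⟩ := (hQRS G L K hL φ hφ).1 ψ hψ'
      obtain ⟨d, -, hd, -⟩ := ((hB2 G K).2 ψ hψ').1
      rw [hn, hd, hcce ψ hψ']
      by_cases hm : ψ ∈ b
      · exact ⟨n * d, by rw [if_pos hm]; push_cast; ring⟩
      · exact ⟨0, by rw [if_neg hm]; simp⟩
    constructor
    · intro h
      by_contra hno
      push Not at hno
      apply h
      rw [h2]
      refine Finset.sum_eq_zero fun ψ hψ => ?_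
      have hψ' : ψ ∈ IrrOn K := hFK.mem_toFinset.1 hψ
      by_cases hm : ψ ∈ b
      · rw [hno ψ hm, zero_mul]
      · rw [hcce ψ hψ', if_neg hm, zero_mul, mul_zero]
    · rintro ⟨ψ, hψ, hmt⟩ h0
      rw [h2] at h0
      have h3 := FR5_natsum _ _ hterm h0 ψ (hFK.mem_toFinset.2 (hbI hψ))
      rw [hcce ψ (hbI hψ), if_pos hψ, one_mul] at h3
      exact mul_ne_zero hmt (hne K ψ (hbI hψ)) h3
  -- `cc ζ e`
  have hcc : ∀ ζ ∈ IrrOn S, (cc ζ e = 1 ↔ ζ ∈ Bl M S θ) := by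
    intro ζ hζ
    rw [← hmem S hKS ζ hζ]
    have h1 : ev ζ e 1 = cc ζ e * ζ 1 := (hEVM G S ζ hζ e hCFS 1 S.one_mem).2
    have h2 : cc ζ e = cc ζ e * cc ζ e := by
      have := (hCCI G S ζ hζ).2.1 e e hCFS hCFS
      rw [hcve] at this
      exact this
    rw [h1]
    constructor
    · intro h
      rw [h, one_mul]; exact hne S ζ hζ
    · intro h
      have h3 : cc ζ e ≠ 0 := left_ne_zero_of_mul h
      have h4 : cc ζ e * (cc ζ e - 1) = 0 := by linear_combination - h2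
      rcases mul_eq_zero.1 h4 with h5 | h5
      · exact absurd h5 h3
      · linear_combination h5
  have hFRD' : ∀ φ, ∃ ζ : G → ℂ, φ ∈ Bl M H θ → ζ ∈ IrrOn S ∧ cc ζ e = 1 ∧ Pool.Agent.FI.mt S φ ζ = 1 ∧
      (∀ ζ' ∈ IrrOn S, cc ζ' e = 1 → ζ' ≠ ζ → Pool.Agent.FI.mt S φ ζ' = 0) ∧
      ∀ x ∈ H, φ x = (∑ᶠ h ∈ (H : Set G), ζ (h⁻¹ * x * h)) / Nat.card S := by
    intro φ
    by_cases hφ : φ ∈ Bl M H θ
    · obtain ⟨ζ, hζ⟩ := hFRD G S H hSH e hCFS hcve (fun h _ hh => hA2 h hh) φ hφ.1 ((hmem H hKH φ hφ.1).2 hφ)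
      exact ⟨ζ, fun _ => hζ⟩
    · exact ⟨0, fun hh => absurd hh hφ⟩
  choose F hF using hFRD'
  have hBC := (hFBC p M hS G S θ 1).1
  have hQ := (hQEI p M hS G S (Bl M S θ) hBC).2.1
  unfold Le
  refine finsum_mem_eq_of_bijOn F ⟨?_, ?_, ?_⟩ ?_
  · intro φ hφ
    obtain ⟨h1, h2, -⟩ := hF φ hφ
    exact (hcc (F φ) h1).1 h2
  · intro φ hφ φ' hφ' heq
    obtain ⟨-, -, -, -, h1⟩ := hF φ hφ
    obtain ⟨-, -, -, -, h2⟩ := hF φ' hφ'
    funext y
    by_cases hy : y ∈ H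
    · rw [h1 y hy, h2 y hy, heq]
    · rw [hφ.1.1 y hy, hφ'.1.1 y hy]
  · intro ζ hζ
    obtain ⟨φ, hφ, hmt⟩ := hFRE G S H hSH ζ hζ.1
    obtain ⟨ψ, hψ, hmt2⟩ := (hFRB p M hS G D x θ χ hRt R hRD hnR S hKS ζ hζ.1).1 hζ
    have hφB : φ ∈ Bl M H θ := by
      refine (hFRB p M hS G D x θ χ hRt R hRD hnR H hKH φ hφ).2 ⟨ψ, hψ, ?_⟩
      intro h0
      rw [FR5_mt hQRS H S K hSH hKS hFS φ hφ ψ] at h0
      have hterm : ∀ ζ' ∈ hFS.toFinset, ∃ m : ℕ, Pool.Agent.FI.mt S φ ζ' * Pool.Agent.FI.mt K ζ' ψ = m := by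
        intro ζ' hζ'
        have hζ'' : ζ' ∈ IrrOn S := hFS.mem_toFinset.1 hζ'
        obtain ⟨n, hn⟩ := (hQRS G H S hSH φ hφ).1 ζ' hζ''
        obtain ⟨n', hn'⟩ := (hQRS G S K hKS ζ' hζ'').1 ψ (hbI hψ)
        exact ⟨n * n', by rw [hn, hn']; push_cast; ring⟩
      exact mul_ne_zero hmt hmt2 (FR5_natsum _ _ hterm h0 ζ (hFS.mem_toFinset.2 hζ.1))
    refine ⟨φ, hφB, ?_⟩
    obtain ⟨-, -, -, h1, -⟩ := hF φ hφB
    by_contra hne'
    exact hmt (h1 ζ hζ.1 ((hcc ζ hζ.1).2 hζ) (fun hh => hne' hh.symm))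
  · intro φ hφ
    obtain ⟨h1, h2, h3, h4, h5⟩ := hF φ hφ
    have hφc : ∀ g, ∀ h ∈ H, φ (h * g * h⁻¹) = φ g := ((hB2 G H).2 φ hφ.1).2.1
    rw [FR5_EE1 p H S hSH φ (F φ) hφc h1.1 h5, FR5_EE2 hQRS p H S hSH hFS φ hφ.1 (F φ)]
    rw [Finset.sum_eq_single (F φ)]
    · rw [h3, one_mul]
    · intro ζ' hζ' hne'
      have hζ'' : ζ' ∈ IrrOn S := hFS.mem_toFinset.1 hζ'
      by_cases hm : ζ' ∈ Bl M S θ
      · rw [h4 ζ' hζ'' ((hcc ζ' hζ'').2 hm) hne', zero_mul]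
      · rw [(hQ (F φ) ((hcc (F φ) h1).1 h2) ζ' hζ'' hm).1, mul_zero]
    · intro hno
      exact absurd (hFS.mem_toFinset.2 h1) hno

end Pool.Agent.L5
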