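import Pool.Agent.helper37.L5.SpecE

/-!
# Row l5:FXA (MP_baa4d7_al): automorphisms fixing a subpair
-/

set_option autoImplicit false

namespace Pool.Agent.L5
open Pool.Agent.helper58.DC Pool.Agent.DI Pool.Agent.GR Pool.Agent.OB Pool.Agent.DR Pool.Agent.FI Pool.Agent.FI3 Pool.Agent.FI4 Pool.Agent.FI4I Pool.Agent.FI4E Pool.Agent.LE

theorem FXA_Ec {G : Type} [Group G] (p e : ℕ) (D : Subgroup G) (α : MulAut G) (h : am α D = D) :
    am α (Ec p e D) = Ec p e D := by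
  unfold am Ec
  rw [MonoidHom.map_closure]
  congr 1
  have hD : ∀ y, y ∈ D ↔ α y ∈ D := by
    intro y
    have h1 : α y ∈ am α D ↔ α⁻¹ (α y) ∈ D := mem_am
    rw [h, MulAut.inv_apply_self] at h1
    exact h1.symm
  ext x
  constructor
  · rintro ⟨z, ⟨hz, y, hy, hyz⟩, rfl⟩
    refine ⟨?_, α y, (hD y).1 hy, ?_⟩
    · change (α z) ^ p = 1
      rw [← map_pow, hz, map_one]
    · change (α y) ^ p ^ (e - 1) = α z
      rw [← map_pow, hyz]
  · rintro ⟨hx, y, hy, hyx⟩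
    refine ⟨α⁻¹ x, ⟨?_, α⁻¹ y, ?_, ?_⟩, ?_⟩
    · rw [← map_pow, hx, map_one]
    · rw [hD, MulAut.apply_inv_self]; exact hy
    · rw [← map_pow, hyx]
    · change α (α⁻¹ x) = x
      exact MulAut.apply_inv_self _ _ _

theorem FXA (hBAA : BAA_stmt) (hFEQ : FEQ_stmt) (hFSI : FSI_stmt) (hIM : IM_stmt) : FXA_stmt := by
  intro p M hS G _ _ D θ hθ α hFx
  obtain ⟨hαD, hαθ⟩ := hFx
  have hcz : am α (cz D) = cz D := by
    have h1 := (hBAA G M p α D D D θ θ θ).1.1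
    rw [hαD] at h1
    exact h1.symm
  -- conjugation
  have hcj : ∀ g : G, cjS g D = D ↔ g ∈ nz D := fun g => (hFEQ G M g g D D D θ θ θ).2.1.2.2.2.1
  have hcjC : ∀ g : G, g ∈ nz D → cjS g (cz D) = cz D := by
    intro g hg
    have h1 := (hFEQ G M g g D D D θ θ θ).2.1.1
    rw [(hcj g).2 hg] at h1
    exact h1.symm
  have hSBc : ∀ g : G, ∀ L : Subgroup G, ∀ η ψ : G → ℂ,
      (SB M L η ψ ↔ SB M (cjS g L) (cjF g η) (cjF g ψ)) :=
    fun g L η ψ => (hFEQ G M g g D D L η ψ θ).2.2.2.2.1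
  have hSBn : ∀ g : G, g ∈ nz D → ∀ η ψ : G → ℂ,
      (SB M (cz D) η ψ ↔ SB M (cz D) (cjF g η) (cjF g ψ)) := by
    intro g hg η ψ
    have h1 := hSBc g (cz D) η ψ
    rw [hcjC g hg] at h1
    exact h1
  have hSBa : ∀ η ψ : G → ℂ, (SB M (cz D) η ψ ↔ SB M (cz D) (funMap α η) (funMap α ψ)) := by
    intro η ψ
    have h1 := (hBAA G M p α D D (cz D) η ψ θ).2.2.2.1
    rw [hcz] at h1
    exact h1
  have hTT : ∀ t : G, t ∈ TT M D θ ↔ t ∈ nz D ∧ SB M (cz D) (cjF t θ) θ := fun t => Iff.rfl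
  -- item (2)
  have h2 : ∀ g : G, FxR M D θ (al α g) ↔ g ∈ TT M D θ := by
    intro g
    rw [hTT]
    unfold FxR
    rw [am_al, hαD, hcj, funMap_al]
    refine and_congr_right fun hg => ?_
    have h1 : SB M (cz D) (cjF g (funMap α θ)) (cjF g θ) := (hSBn g hg _ _).1 hαθ
    exact ⟨fun h => h1.symm.trans h, fun h => h1.trans h⟩
  -- membership in `TT`
  have h3 : ∀ t : G, t ∈ TT M D θ ↔ α t ∈ TT M D θ := by
    intro t
    rw [hTT, hTT]
    have hnz : α t ∈ nz D ↔ t ∈ nz D := by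
      have h1 := (hBAA G M p α D D D θ θ θ).1.2.1
      rw [hαD] at h1
      have h4 : α t ∈ am α (nz D) ↔ α⁻¹ (α t) ∈ nz D := mem_am
      rw [← h1, MulAut.inv_apply_self] at h4
      exact h4
    rw [hnz]
    refine and_congr_right fun ht => ?_
    rw [hSBa]
    have h5 := ((hBAA G M p α D D D θ θ θ).2.2.2.2.2.2.2.2.1 t).2
    rw [h5]
    have h6 : SB M (cz D) (cjF (α t) (funMap α θ)) (cjF (α t) θ) := (hSBn (α t) (hnz.2 ht) _ _).1 hαθ
    exact ⟨fun h => (h6.symm.trans h).trans hαθ, fun h => (h6.trans h).trans hαθ.symm⟩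
  refine ⟨?_, h2, ?_, ?_, ?_, ?_, ?_⟩
  · intro k
    induction k with
    | zero =>
      refine ⟨by rw [pow_zero]; exact am_one D, ?_⟩
      have h4 : funMap (α ^ 0) θ = θ := by
        funext y; simp [funMap]
      rw [h4]
      exact SB.refl _ _
    | succ k ih =>
      obtain ⟨ih1, ih2⟩ := ih
      refine ⟨by rw [pow_succ', am_mul, ih1, hαD], ?_⟩
      rw [pow_succ', Pool.Agent.FI4E.funMap_mul]
      exact ((hSBa _ _).1 ih2).trans hαθ
  · ext x
    rw [mem_am, h3 (α⁻¹ x), MulAut.apply_inv_self]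
  · intro h g
    rw [← h2 (h⁻¹ * g * α h)]
    unfold FxR
    have e1 : am (al α g) (cjS h D) = cjS (g * α h) D := by
      rw [am_al, ((hBAA G M p α D D D θ θ θ).2.2.2.2.2.2.2.2.1 h).1, hαD,
        (hFEQ G M g (α h) D D D θ θ θ).1.1]
    have e2 : funMap (al α g) (cjF h θ) = cjF (g * α h) (funMap α θ) := by
      rw [funMap_al, ((hBAA G M p α D D D θ θ θ).2.2.2.2.2.2.2.2.1 h).2,
        (hFEQ G M g (α h) D D D θ (funMap α θ) θ).1.2.1]
    have e3 : am (al α (h⁻¹ * g * α h)) D = cjS (h⁻¹ * (g * α h)) D := by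
      rw [am_al, hαD, mul_assoc]
    have e4 : funMap (al α (h⁻¹ * g * α h)) θ = cjF (h⁻¹ * (g * α h)) (funMap α θ) := by
      rw [funMap_al, mul_assoc]
    rw [e1, e2, e3, e4]
    have hinj : ∀ P Q : Subgroup G, cjS h P = Q ↔ P = cjS h⁻¹ Q := by
      intro P Q
      constructor
      · intro hh
        rw [← hh, (hFEQ G M h⁻¹ h P P P θ θ θ).1.1, inv_mul_cancel, (hFEQ G M h⁻¹ h P P P θ θ θ).1.2.2.1]
      · intro hh
        rw [hh, (hFEQ G M h h⁻¹ Q Q Q θ θ θ).1.1, mul_inv_cancel, (hFEQ G M h⁻¹ h Q Q Q θ θ θ).1.2.2.1]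
    refine and_congr ?_ ?_
    · rw [eq_comm, hinj, eq_comm, (hFEQ G M h⁻¹ (g * α h) D D D θ θ θ).1.1]
    · have e5 : cz (cjS h D) = cjS h (cz D) := (hFEQ G M h h D D D θ θ θ).2.1.1
      rw [e5, hSBc h⁻¹ (cjS h (cz D)), (hFEQ G M h⁻¹ h (cz D) D D θ θ θ).1.1,
        (hFEQ G M h⁻¹ h D D D θ θ θ).1.2.1, inv_mul_cancel, (hFEQ G M h⁻¹ h (cz D) D D θ θ θ).1.2.2.1,
        (hFEQ G M h⁻¹ h (cz D) D D θ θ θ).1.2.2.2,
        (hFEQ G M h⁻¹ (g * α h) D D D θ (funMap α θ) θ).1.2.1]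
  · intro K hK hαK ζ hζ
    refine ⟨?_, ?_⟩
    · have h4 := ((hBAA G M p α D D K θ ζ θ).2.2.1).1 hζ.1
      rw [hαK] at h4
      exact h4
    · have h4 := ((hBAA G M p α D D K ζ θ θ).2.2.2.1).1 hζ.2
      rw [hαK] at h4
      have hv : ∀ x, x ∉ cz D → funMap α θ x = 0 := by
        intro x hx
        change θ (α⁻¹ x) = 0
        apply hθ.1
        intro hc
        apply hx
        have h5 : x ∈ am α (cz D) := mem_am.2 hc
        rwa [hcz] at h5
      exact h4.trans ((hFSI p M hS G (cz D) K (funMap α θ) θ).1 hK hv hθ.1 hαθ)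
  · intro e
    have h4 := FXA_Ec p e D α hαD
    refine ⟨h4, ?_⟩
    have h5 := (hBAA G M p α (Ec p e D) D D θ θ θ).1.2.1
    rw [h4] at h5
    exact h5.symm
  · intro χ hχ hind
    have hv : ∀ x, x ∉ cz D → funMap α θ x = 0 := by
      intro x hx
      change θ (α⁻¹ x) = 0
      apply hθ.1
      intro hc
      apply hx
      have h5 : x ∈ am α (cz D) := mem_am.2 hc
      rwa [hcz] at h5
    have h4 : Induces M (funMap α θ) (funMap α χ) := ((hBAA G M p α D D D θ χ χ).2.2.2.2.2.1).2 hind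
    have h5 : Induces M (funMap α θ) χ :=
      ((hFSI p M hS G (cz D) (cz D) (funMap α θ) θ).2 hv hθ.1 hαθ χ).2 hind
    exact (hIM G M (funMap α χ) (funMap α θ) χ).2.2.1
      ((hIM G M (funMap α θ) (funMap α χ) χ).2.1 h4) h5

end Pool.Agent.L5
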